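import Pool.Agent.H177Z.MP.St

/-! The Galois side. -/

set_option autoImplicit false

namespace Pool.Agent.H49Z.MP

open Pool.Agent.H177Z.MP Matrix
open scoped MatrixGroups Topology IntermediateField

section chi

variable (p : ℕ) [hp : Fact p.Prime] (k : Type) [Field k] [CharP k p]

lemma omega_val (σ : Gal) (a : ZMod p) (h : ∀ t : Qb, t ^ p = 1 → σ t = t ^ a.val) :
    ((omega p k σ : kˣ) : k) = ZMod.castHom (dvd_refl p) k a := by
  have h1 := modularCyclotomicCharacter.unique Qb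
    (HasEnoughRootsOfUnity.natCard_rootsOfUnity Qb p) (MulSemiringAction.toRingAut Gal Qb σ)
    (c := a) (fun t ht => h t (by
      rw [mem_rootsOfUnity] at ht
      rw [← Units.val_pow_eq_pow_val, ht, Units.val_one]))
  rw [h1]
  rfl

lemma omega_eq_one (σ : Gal) {ζ : Qb} (hζ : IsPrimitiveRoot ζ p) (h : σ ζ = ζ) :
    omega p k σ = 1 := by
  ext
  rw [omega_val p k σ 1, map_one, Units.val_one]
  intro t ht
  obtain ⟨i, -, rfl⟩ := hζ.eq_pow_of_pow_eq_one ht
  rw [ZMod.val_one, pow_one, map_pow, h]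

lemma omega_conj {c : Gal} (hc : IsComplexConj c) : omega p k c = -1 := by
  obtain ⟨ι, hι⟩ := hc
  ext
  rw [omega_val p k c (-1), map_neg, map_one, Units.val_neg, Units.val_one]
  intro t ht
  have hp0 : p ≠ 0 := hp.out.ne_zero
  have h1 : ι t ^ p = 1 := by rw [← map_pow, ht, map_one]
  have h2 : ‖ι t‖ = 1 := Complex.norm_eq_one_of_pow_eq_one h1 hp0
  have h3 : c t * t = 1 := by
    apply ι.injective
    rw [map_mul, hι, map_one, Complex.conj_mul', h2]
    simp
  have h4 : t ^ (-1 : ZMod p).val * t = 1 := by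
    have h5 : (-1 : ZMod p).val + 1 = p := by
      obtain ⟨n, rfl⟩ := Nat.exists_eq_succ_of_ne_zero hp0
      rw [ZMod.val_neg_one]
    rw [← pow_succ, h5, ht]
  have ht0 : t ≠ 0 := by
    rintro rfl
    simp at h3
  exact mul_right_cancel₀ ht0 (h3.trans h4.symm)

lemma exists_root : ∃ ζ : Qb, IsPrimitiveRoot ζ p :=
  HasEnoughRootsOfUnity.exists_primitiveRoot Qb p

lemma omega_lc : IsLocallyConstant (omega p k) := by
  obtain ⟨ζ, hζ⟩ := exists_root p
  have hfd : FiniteDimensional ℚ ℚ⟮ζ⟯ :=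
    IntermediateField.adjoin.finiteDimensional (hζ.isIntegral hp.out.pos).tower_top
  have ho := IntermediateField.fixingSubgroup_isOpen ℚ⟮ζ⟯
  rw [IsLocallyConstant.iff_eventually_eq]
  intro x
  have hc : Continuous fun y : Gal => x⁻¹ * y := continuous_const.mul continuous_id
  have hm : (fun y : Gal => x⁻¹ * y) ⁻¹' (ℚ⟮ζ⟯.fixingSubgroup : Set Gal) ∈ 𝓝 x :=
    (ho.preimage hc).mem_nhds (by simp)
  filter_upwards [hm] with y hy
  have h1 : omega p k (x⁻¹ * y) = 1 :=
    omega_eq_one p k _ hζ (hy ⟨ζ, IntermediateField.mem_adjoin_simple_self ℚ ζ⟩)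
  rw [map_mul, map_inv, inv_mul_eq_one] at h1
  exact h1.symm

lemma omega_unram {s : ℕ} (hs : s.Prime) (hsp : s ≠ p) (O : ValuationSubring Qb) (hO : Over s O)
    (σ : O.decompositionSubgroup ℚ) (hσ : σ ∈ O.inertiaSubgroup ℚ) : omega p k σ = 1 := by
  obtain ⟨ζ, hζ⟩ := exists_root p
  refine omega_eq_one p k _ hζ ?_
  obtain ⟨n, hn⟩ := Nat.exists_eq_succ_of_ne_zero hp.out.ne_zero
  have h1 : ζ ^ n * ζ = 1 := by rw [← pow_succ, ← Nat.succ_eq_add_one, ← hn, hζ.pow_eq_one]
  have hζ0 : ζ ≠ 0 := hζ.ne_zero hp.out.ne_zero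
  have hmem : ζ ∈ O := by
    rcases O.mem_or_inv_mem ζ with h | h
    · exact h
    · have h2 : ζ = ζ⁻¹ ^ n := by
        rw [inv_pow]
        exact eq_inv_of_mul_eq_one_right h1
      rw [h2]
      exact pow_mem h n
  set z : O := ⟨ζ, hmem⟩ with hz
  have hz1 : z ^ n * z = 1 := Subtype.ext h1
  have hzp : z ^ p = 1 := Subtype.ext hζ.pow_eq_one
  have hres : IsLocalRing.residue O (σ • z) = IsLocalRing.residue O z := by
    rw [IsLocalRing.ResidueField.residue_smul]
    have h3 := congrArg (fun f : RingAut (IsLocalRing.ResidueField O) =>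
      f (IsLocalRing.residue O z)) (MonoidHom.mem_ker.1 hσ)
    exact h3
  set η : O := z ^ n * σ • z with hη
  have hη1 : IsLocalRing.residue O η = 1 := by
    rw [hη, map_mul, hres, ← map_mul, hz1, map_one]
  have hηp : η ^ p = 1 := by
    rw [hη, mul_pow, ← pow_mul, mul_comm n p, pow_mul, ← smul_pow', hzp]
    simp
  have hη2 : η = 1 := by
    by_contra hne
    have h4 : ∑ i ∈ Finset.range p, η ^ i = 0 := by
      have h5 := mul_geom_sum η p
      rw [hηp, sub_self] at h5
      exact (mul_eq_zero.1 h5).resolve_left (sub_ne_zero.2 hne)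
    have h6 : (p : IsLocalRing.ResidueField O) = 0 := by
      have h7 := congrArg (IsLocalRing.residue O) h4
      simpa [map_sum, hη1] using h7
    have h8 : (s : IsLocalRing.ResidueField O) = 0 := by
      have h9 : (s : O) ∈ IsLocalRing.maximalIdeal O := by
        rw [ValuationSubring.valuation_lt_one_iff]
        exact hO
      rw [← map_natCast (IsLocalRing.residue O)]
      exact (IsLocalRing.residue_eq_zero_iff _).2 h9
    have h10 : IsCoprime (s : IsLocalRing.ResidueField O) (p : IsLocalRing.ResidueField O) :=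
      Nat.Coprime.cast ((Nat.coprime_primes hs hp.out).2 hsp)
    rw [h6, h8] at h10
    exact not_isCoprime_zero_zero h10
  have h11 : ζ ^ n * (σ : Gal) ζ = 1 := congrArg Subtype.val hη2
  exact mul_left_cancel₀ (pow_ne_zero n hζ0) (h11.trans h1.symm)

end chi

variable {k : Type} [Field k]

/-- the cocharacter -/
def dgm (x : Fin 3 → ℤ) : kˣ →* Matrix (Fin 3) (Fin 3) k where
  toFun w := diagonal fun i => ((w ^ x i : kˣ) : k)
  map_one' := by simp
  map_mul' a b := by
    rw [diagonal_mul_diagonal]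
    simp only [mul_zpow, Units.val_mul]

def dg (x : Fin 3 → ℤ) : kˣ →* GL (Fin 3) k := (dgm x).toHomUnits

lemma dg_val (x : Fin 3 → ℤ) (w : kˣ) :
    (dg x w : Matrix (Fin 3) (Fin 3) k) = diagonal fun i => ((w ^ x i : kˣ) : k) := rfl

lemma dg_neg : (dg ![5, 2, 0] (-1 : kˣ) : Matrix (Fin 3) (Fin 3) k) = diagonal ![-1, 1, 1] := by
  rw [dg_val]
  congr 1
  funext i
  have h5 : (-1 : kˣ) ^ (5 : ℤ) = -1 := Odd.neg_one_zpow (by decide)
  have h2 : (-1 : kˣ) ^ (2 : ℤ) = 1 := Even.neg_one_zpow (by decide)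
  fin_cases i
  · simp [h5]
  · simp [h2]
  · simp

lemma trace_Ad (A : GL (Fin 3) k) (d e : Fin 3 → k)
    (hd : (A : Matrix (Fin 3) (Fin 3) k) = diagonal d)
    (he : ((A⁻¹ : GL (Fin 3) k) : Matrix (Fin 3) (Fin 3) k) = diagonal e) :
    LinearMap.trace k (LiePGL k) (Ad A) = (∑ i, ∑ j, d i * e j) - d 0 * e 0 := by
  set S : Submodule k (Matrix (Fin 3) (Fin 3) k) :=
    Submodule.span k {(1 : Matrix (Fin 3) (Fin 3) k)} with hS
  set f : Matrix (Fin 3) (Fin 3) k →ₗ[k] Matrix (Fin 3) (Fin 3) k :=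
    (LinearMap.mulLeft k (A : Matrix (Fin 3) (Fin 3) k)).comp
      (LinearMap.mulRight k ((A⁻¹ : GL (Fin 3) k) : Matrix (Fin 3) (Fin 3) k)) with hf
  set g : Matrix (Fin 3) (Fin 3) k →ₗ[k] Matrix (Fin 3) (Fin 3) k :=
    LinearMap.id - (Matrix.entryLinearMap k k 0 0).smulRight 1 with hg
  have hker : S ≤ LinearMap.ker g := by
    rw [hS, Submodule.span_le]
    rintro _ rfl
    simp [hg]
  have h1 : Ad A = S.mkQ ∘ₗ (f ∘ₗ S.liftQ g hker) := by
    apply Submodule.linearMap_qext
    ext X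
    have h2 : Ad A (S.mkQ X) = S.mkQ (f X) := rfl
    have h3 : S.liftQ g hker (S.mkQ X) = g X := rfl
    simp only [LinearMap.comp_apply]
    rw [h2, h3, Submodule.mkQ_apply, Submodule.mkQ_apply, Submodule.Quotient.eq, ← map_sub]
    have h4 : X - g X = X 0 0 • (1 : Matrix (Fin 3) (Fin 3) k) := by simp [hg]
    have h5 : f 1 = 1 := by simp [hf]
    rw [h4, map_smul, h5]
    exact S.smul_mem _ (Submodule.mem_span_singleton_self _)
  rw [h1, LinearMap.trace_comp_comm', LinearMap.comp_assoc, Submodule.liftQ_mkQ]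
  have h6 : f ∘ₗ g = (∑ i, ∑ j, (Matrix.entryLinearMap k k i j).smulRight
      (Matrix.single i j (d i * e j))) - (Matrix.entryLinearMap k k 0 0).smulRight
        (diagonal fun i => d i * e i) := by
    apply LinearMap.ext
    intro X
    ext a b
    simp only [hf, hg, hd, he, LinearMap.comp_apply, LinearMap.sub_apply, LinearMap.id_apply,
      LinearMap.smulRight_apply, LinearMap.mulLeft_apply, LinearMap.mulRight_apply,
      Matrix.entryLinearMap_apply, diagonal_mul, mul_diagonal,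
      Matrix.sub_apply, Matrix.smul_apply, Fin.sum_univ_three, smul_eq_mul]
    fin_cases a <;> fin_cases b <;> simp <;> ring
  rw [h6, map_sub, map_sum]
  simp only [map_sum, LinearMap.trace_smulRight]
  simp

theorem thm_gal : S_gal := by
  intro p _ _ k _ _
  refine ⟨(ProjGenLinGroup.mk.comp (dg ![5, 2, 0])).comp (omega p k), ?_, ?_, ?_, ?_, ?_⟩
  · exact (omega_lc p k).comp (ProjGenLinGroup.mk.comp (dg ![5, 2, 0]))
  · intro c hc A hA
    rw [MonoidHom.comp_apply, MonoidHom.comp_apply, omega_conj p k hc, eq_comm,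
      ProjGenLinGroup.mk_eq_mk_iff] at hA
    obtain ⟨u, hu⟩ := hA
    have hd : (A : Matrix (Fin 3) (Fin 3) k) = diagonal ![-(u : k), u, u] := by
      rw [← hu, Units.val_mul, dg_neg]
      ext i j
      fin_cases i <;> fin_cases j <;> simp [Matrix.mul_apply, Fin.sum_univ_three]
    have he : ((A⁻¹ : GL (Fin 3) k) : Matrix (Fin 3) (Fin 3) k)
        = diagonal ![-(u : k)⁻¹, (u : k)⁻¹, (u : k)⁻¹] := by
      apply Units.inv_eq_of_mul_eq_one_right
      rw [hd, diagonal_mul_diagonal, ← diagonal_one]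
      congr 1
      funext i
      fin_cases i <;> simp
    rw [trace_Ad A _ _ hd he]
    simp [Fin.sum_univ_three]
  · intro c hc
    refine ⟨dg ![5, 2, 0] (-1), ?_, dg_neg⟩
    rw [MonoidHom.comp_apply, MonoidHom.comp_apply, omega_conj p k hc]
  · intro O _
    refine ⟨1, fun σ => ⟨dg ![5, 2, 0] (omega p k σ), by simp, ?_, fun _ => ⟨1, fun i => ?_⟩⟩⟩
    · rw [dg_val]
      exact Matrix.blockTriangular_diagonal _
    · rw [dg_val, diagonal_apply_eq, one_mul]
  · intro s hs hsp O hO σ hσ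
    rw [MonoidHom.comp_apply, omega_unram p k hs hsp O hO σ hσ, map_one]

end Pool.Agent.H49Z.MP
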